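import Mathlib

set_option autoImplicit false

namespace Pool.Agent.Helper50.Engel

open Polynomial Finset

/-- A polynomial in `k` variables over a field of characteristic two, of total degree `< k`,
sums to zero over `F_2 ^ k`. -/
theorem sum_eval_zmod2 {F : Type*} [Field F] [Algebra (ZMod 2) F] {k : ℕ}
    (P : MvPolynomial (Fin k) F) (hP : P.totalDegree < k) :
    ∑ x : Fin k → ZMod 2, MvPolynomial.eval (fun i => algebraMap (ZMod 2) F (x i)) P = 0 := by
  classical
  have h1 : ∀ x : Fin k → ZMod 2,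
      MvPolynomial.eval (fun i => algebraMap (ZMod 2) F (x i)) P
        = ∑ m ∈ P.support, P.coeff m *
            algebraMap (ZMod 2) F (MvPolynomial.eval x (MvPolynomial.monomial m (1 : ZMod 2))) := by
    intro x
    rw [MvPolynomial.eval_eq]
    refine Finset.sum_congr rfl fun m _ => ?_
    rw [MvPolynomial.eval_monomial, one_mul, Finsupp.prod, map_prod]
    simp only [map_pow]
  simp only [h1]
  rw [Finset.sum_comm]
  refine Finset.sum_eq_zero fun m hm => ?_
  rw [← Finset.mul_sum, ← map_sum]
  have h2 : ∑ x : Fin k → ZMod 2,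
      MvPolynomial.eval x (MvPolynomial.monomial m (1 : ZMod 2)) = 0 := by
    haveI : Fact (Nat.Prime 2) := ⟨Nat.prime_two⟩
    refine MvPolynomial.sum_eval_eq_zero _ ?_
    have h3 : (MvPolynomial.monomial m (1 : ZMod 2)).totalDegree ≤ P.totalDegree := by
      rw [MvPolynomial.totalDegree_monomial _ one_ne_zero]
      exact MvPolynomial.le_totalDegree hm
    simpa using lt_of_le_of_lt h3 hP
  rw [h2, map_zero, mul_zero]

section

variable {F : Type*} [Field F] [Fintype F] [CharP F 2]

/-- The product of `1 + b^(2^i) X` over `i < k`. -/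
noncomputable def N (b : F) (k : ℕ) : F[X] := ∏ i ∈ range k, (1 + C (b ^ 2 ^ i) * X)

theorem N_frob {k : ℕ} (hk : Fintype.card F = 2 ^ k) (b : F) :
    (N b k).map (frobenius F 2) = N b k := by
  have h1 : (N b k).map (frobenius F 2) = ∏ i ∈ range k, (1 + C (b ^ 2 ^ (i + 1)) * X) := by
    rw [N, Polynomial.map_prod]
    refine Finset.prod_congr rfl fun i _ => ?_
    simp only [Polynomial.map_add, Polynomial.map_one, Polynomial.map_mul, Polynomial.map_C,
      Polynomial.map_X, frobenius_def, pow_succ, pow_mul]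
  rw [h1]
  have hb : b ^ 2 ^ k = b := by rw [← hk]; exact FiniteField.pow_card b
  have h2 := Finset.prod_range_succ' (fun i => (1 + C (b ^ 2 ^ i) * X : F[X])) k
  have h3 := Finset.prod_range_succ (fun i => (1 + C (b ^ 2 ^ i) * X : F[X])) k
  have h4 : (1 + C (b ^ 2 ^ k) * X : F[X]) = 1 + C (b ^ 2 ^ 0) * X := by
    rw [hb, pow_zero, pow_one]
  have hne : (1 + C (b ^ 2 ^ 0) * X : F[X]) ≠ 0 := by
    intro h
    have := congrArg (fun p => Polynomial.coeff p 0) h
    simp at this
  rw [h3, h4] at h2
  exact (mul_right_cancel₀ hne h2).symm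

theorem N_coeff_sq {k : ℕ} (hk : Fintype.card F = 2 ^ k) (b : F) (j : ℕ) :
    (N b k).coeff j ^ 2 = (N b k).coeff j := by
  have := congrArg (fun p => Polynomial.coeff p j) (N_frob hk b)
  simpa [Polynomial.coeff_map, frobenius_def] using this

theorem N_coeff (b : F) (k j : ℕ) :
    (N b k).coeff j = ∑ t ∈ powersetCard j (range k), ∏ i ∈ t, b ^ 2 ^ i := by
  classical
  have h1 : N b k = ∑ t ∈ (range k).powerset, C (∏ i ∈ t, b ^ 2 ^ i) * X ^ t.card := by
    rw [N, Finset.prod_one_add]
    refine Finset.sum_congr rfl fun t _ => ?_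
    rw [Finset.prod_mul_distrib, Finset.prod_const, map_prod]
  rw [h1, Polynomial.finsetSum_coeff]
  simp only [Polynomial.coeff_C_mul, Polynomial.coeff_X_pow]
  rw [Finset.powersetCard_eq_filter, Finset.sum_filter]
  refine Finset.sum_congr rfl fun t _ => ?_
  by_cases h : j = t.card
  · simp [h]
  · simp [h, Ne.symm h]

/-- Chevalley-Warning step. -/
theorem exists_b {k r : ℕ} (hk : Fintype.card F = 2 ^ k) (hr : r * (r - 1) / 2 < k) :
    ∃ b : F, b ≠ 0 ∧ ∀ j, 1 ≤ j → j < r → (N b k).coeff j = 0 := by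
  classical
  haveI : Fact (Nat.Prime 2) := ⟨Nat.prime_two⟩
  letI : Algebra (ZMod 2) F := ZMod.algebra F 2
  by_contra hcon
  push Not at hcon
  -- dimension
  have hfin : Module.Finite (ZMod 2) F := Module.Finite.of_finite
  have hdim : Module.finrank (ZMod 2) F = k := by
    have h1 := Module.card_eq_pow_finrank (K := ZMod 2) (V := F)
    rw [hk, ZMod.card] at h1
    exact (Nat.pow_right_injective (le_refl 2) h1).symm
  let β := Module.finBasisOfFinrankEq (ZMod 2) F hdim
  -- the polynomial
  let L : ℕ → MvPolynomial (Fin k) F := fun l => ∑ i, MvPolynomial.C (β i ^ 2 ^ l) * MvPolynomial.X i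
  let E : ℕ → MvPolynomial (Fin k) F := fun j => ∑ t ∈ powersetCard j (range k), ∏ i ∈ t, L i
  let P : MvPolynomial (Fin k) F := ∏ j ∈ range (r - 1), (1 + E (j + 1))
  have hL : ∀ l, (L l).totalDegree ≤ 1 := by
    intro l
    refine (MvPolynomial.totalDegree_finsetSum _ _).trans ?_
    refine Finset.sup_le fun i _ => ?_
    refine (MvPolynomial.totalDegree_mul _ _).trans ?_
    rw [MvPolynomial.totalDegree_C, MvPolynomial.totalDegree_X]
  have hE : ∀ j, (E j).totalDegree ≤ j := by
    intro j
    refine (MvPolynomial.totalDegree_finsetSum _ _).trans ?_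
    refine Finset.sup_le fun t ht => ?_
    refine (MvPolynomial.totalDegree_finsetProd _ _).trans ?_
    calc ∑ i ∈ t, (L i).totalDegree ≤ ∑ i ∈ t, 1 := Finset.sum_le_sum fun i _ => hL i
      _ = j := by rw [Finset.sum_const, smul_eq_mul, mul_one, (mem_powersetCard.1 ht).2]
  have hP : P.totalDegree < k := by
    refine lt_of_le_of_lt ?_ hr
    refine (MvPolynomial.totalDegree_finsetProd _ _).trans ?_
    calc ∑ j ∈ range (r - 1), (1 + E (j + 1)).totalDegree
        ≤ ∑ j ∈ range (r - 1), (j + 1) := by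
          refine Finset.sum_le_sum fun j _ => ?_
          refine (MvPolynomial.totalDegree_add _ _).trans ?_
          rw [MvPolynomial.totalDegree_one]
          exact max_le (Nat.zero_le _) (hE _)
      _ ≤ r * (r - 1) / 2 := by
          rw [Nat.le_div_iff_mul_le two_pos]
          have h1 : ∀ n : ℕ, (∑ j ∈ range n, (j + 1)) * 2 = (n + 1) * n := by
            intro n
            induction n with
            | zero => simp
            | succ n ih => rw [Finset.sum_range_succ, add_mul, ih]; ring
          rw [h1]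
          rcases Nat.eq_zero_or_pos r with h | h
          · subst h; simp
          · rw [Nat.sub_add_cancel h]
  have hsum := sum_eval_zmod2 P hP
  -- evaluation
  have hevL : ∀ (x : Fin k → ZMod 2) (l : ℕ),
      MvPolynomial.eval (fun i => algebraMap (ZMod 2) F (x i)) (L l)
        = (∑ i, x i • β i) ^ 2 ^ l := by
    intro x l
    rw [sum_pow_char_pow]
    simp only [L, map_sum, map_mul, MvPolynomial.eval_C, MvPolynomial.eval_X]
    refine Finset.sum_congr rfl fun i _ => ?_
    have h5 : ∀ a : ZMod 2, a ^ 2 ^ l = a := by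
      intro a
      exact ZMod.pow_card_pow a
    have h6 : (algebraMap (ZMod 2) F (x i)) ^ 2 ^ l = algebraMap (ZMod 2) F (x i) := by
      rw [← map_pow (algebraMap (ZMod 2) F), h5]
    rw [Algebra.smul_def, mul_pow, h6, mul_comm]
  have hevP : ∀ (x : Fin k → ZMod 2),
      MvPolynomial.eval (fun i => algebraMap (ZMod 2) F (x i)) P
        = ∏ j ∈ range (r - 1), (1 + (N (∑ i, x i • β i) k).coeff (j + 1)) := by
    intro x
    simp only [P, map_prod, map_add, map_one]
    refine Finset.prod_congr rfl fun j _ => ?_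
    rw [N_coeff]
    simp only [E, map_sum, map_prod, hevL]
  simp only [hevP] at hsum
  rw [Finset.sum_eq_single (0 : Fin k → ZMod 2)] at hsum
  · have h0 : ∀ j, (N (0 : F) k).coeff (j + 1) = 0 := by
      intro j
      have : N (0 : F) k = 1 := by
        rw [N]
        refine Finset.prod_eq_one fun i _ => ?_
        rw [zero_pow (by positivity)]; simp
      rw [this, Polynomial.coeff_one]; simp
    simp [h0] at hsum
  · intro x _ hx
    have hb : (∑ i, x i • β i) ≠ 0 := by
      intro h
      apply hx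
      have := β.equivFun.symm_apply_apply
      have h2 : β.equivFun.symm x = 0 := by rw [Module.Basis.equivFun_symm_apply]; exact h
      exact (LinearEquiv.map_eq_zero_iff _).1 h2
    obtain ⟨j, hj1, hj2, hj3⟩ := hcon _ hb
    refine Finset.prod_eq_zero (i := j - 1) (mem_range.2 (by omega)) ?_
    rw [Nat.sub_add_cancel hj1]
    have h1 := N_coeff_sq hk (∑ i, x i • β i) j
    have h2 : (N (∑ i, x i • β i) k).coeff j = 1 := by
      have h3 : (N (∑ i, x i • β i) k).coeff j * ((N (∑ i, x i • β i) k).coeff j - 1) = 0 := by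
        rw [mul_sub, mul_one, ← sq, h1, sub_self]
      rcases mul_eq_zero.1 h3 with h | h
      · exact absurd h hj3
      · exact sub_eq_zero.1 h
    rw [h2]
    exact CharTwo.add_self_eq_zero 1
  · intro h; exact absurd (Finset.mem_univ _) h


theorem exists_trace_one {k : ℕ} (hk : Fintype.card F = 2 ^ k) (hk0 : 0 < k) :
    ∃ θ : F, ∑ i ∈ range k, θ ^ 2 ^ i = 1 := by
  classical
  by_contra hcon
  push Not at hcon
  have hz : ∀ θ : F, ∑ i ∈ range k, θ ^ 2 ^ i = 0 := by
    intro θ
    have h1 : (∑ i ∈ range k, θ ^ 2 ^ i) ^ 2 = ∑ i ∈ range k, θ ^ 2 ^ i := by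
      rw [← frobenius_def, map_sum]
      simp only [frobenius_def, ← pow_mul, ← pow_succ]
      have hb : θ ^ 2 ^ k = θ := by rw [← hk]; exact FiniteField.pow_card θ
      have h2 := Finset.sum_range_succ' (fun i => θ ^ 2 ^ i) k
      have h3 := Finset.sum_range_succ (fun i => θ ^ 2 ^ i) k
      rw [h3, hb, pow_zero, pow_one] at h2
      exact (add_right_cancel h2).symm
    have h2 : (∑ i ∈ range k, θ ^ 2 ^ i) * ((∑ i ∈ range k, θ ^ 2 ^ i) - 1) = 0 := by
      rw [mul_sub, mul_one, ← sq, h1, sub_self]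
    rcases mul_eq_zero.1 h2 with h | h
    · exact h
    · exact absurd (sub_eq_zero.1 h) (hcon θ)
  let p : F[X] := ∑ i ∈ range k, X ^ 2 ^ i
  have hdeg : p.natDegree < Fintype.card F := by
    refine lt_of_le_of_lt (Polynomial.natDegree_sum_le_of_forall_le (n := 2 ^ (k - 1)) _ _ ?_) ?_
    · intro i hi
      rw [Polynomial.natDegree_X_pow]
      exact Nat.pow_le_pow_right two_pos (by have := mem_range.1 hi; omega)
    · rw [hk]; exact Nat.pow_lt_pow_right (by norm_num) (by omega)
  have hp0 : p = 0 := by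
    refine Polynomial.eq_zero_of_natDegree_lt_card_of_eval_eq_zero p (f := fun x : F => x)
      (fun _ _ h => h) ?_ hdeg
    intro x
    simp only [p, Polynomial.eval_finset_sum, Polynomial.eval_pow, Polynomial.eval_X]
    exact hz x
  have h1 : p.coeff 1 = 1 := by
    simp only [p, Polynomial.finsetSum_coeff, Polynomial.coeff_X_pow]
    rw [Finset.sum_eq_single 0]
    · simp
    · intro i _ hi
      rw [if_neg]
      intro h
      have : 1 < 2 ^ i := Nat.one_lt_two_pow hi
      omega
    · intro h; exact absurd (mem_range.2 hk0) h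
  rw [hp0] at h1
  simp at h1

/-- partial products used for the explicit Hilbert 90 solution. -/
noncomputable def M (b : F) (k i : ℕ) : F[X] := ∏ l ∈ range i, (1 + C (b ^ 2 ^ (k - (l + 1))) * X)

theorem exists_chain {k r : ℕ} (hk : Fintype.card F = 2 ^ k) (hk0 : 0 < k) (b : F)
    (hb : ∀ j, 1 ≤ j → j < r → (N b k).coeff j = 0) :
    ∃ v : ℕ → F, v 0 = 1 ∧ ∀ j, j + 1 < r → v (j + 1) ^ 2 + v (j + 1) = b * v j := by
  classical
  obtain ⟨θ, hθ⟩ := exists_trace_one (F := F) hk hk0
  have hF : ∀ a : F, a ^ 2 ^ k = a := by intro a; rw [← hk]; exact FiniteField.pow_card a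
  let φ : F[X] →+* F[X] := Polynomial.mapRingHom (frobenius F 2)
  have hφC : ∀ a : F, φ (C a) = C (a ^ 2) := by
    intro a; simp [φ, frobenius_def]
  have hφX : φ X = X := by simp [φ]
  let V : F[X] := ∑ i ∈ range k, M b k i * C (θ ^ 2 ^ (k - i))
  have hφM : ∀ i, i < k → φ (M b k (i + 1)) = (1 + C b * X) * M b k i := by
    intro i hi
    rw [M, map_prod]
    have h1 : ∀ l ∈ range (i + 1), φ (1 + C (b ^ 2 ^ (k - (l + 1))) * X)
        = 1 + C (b ^ 2 ^ (k - l)) * X := by
      intro l hl
      have hl' : l < k := lt_of_lt_of_le (mem_range.1 hl) hi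
      rw [map_add, map_one, map_mul, hφC, hφX, ← pow_mul, ← pow_succ]
      congr 5
      omega
    rw [Finset.prod_congr rfl h1, Finset.prod_range_succ', Nat.sub_zero, hF, mul_comm]
    rfl
  have hN : (1 + C b * X) * M b k (k - 1) = N b k := by
    rw [M, N]
    have h1 : ∏ l ∈ range (k - 1), (1 + C (b ^ 2 ^ (k - (l + 1))) * X : F[X])
        = ∏ l ∈ range (k - 1), (1 + C (b ^ 2 ^ (l + 1)) * X) := by
      rw [← Finset.prod_range_reflect]
      refine Finset.prod_congr rfl fun l hl => ?_
      have := mem_range.1 hl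
      congr 5
      omega
    rw [h1]
    have h2 := Finset.prod_range_succ' (fun i => (1 + C (b ^ 2 ^ i) * X : F[X])) (k - 1)
    rw [Nat.sub_add_cancel hk0] at h2
    rw [h2, pow_zero, pow_one, mul_comm]
  have hφV : φ V = (1 + C b * X) * V + C (θ ^ 2) * (1 - N b k) := by
    obtain ⟨k', rfl⟩ : ∃ k', k = k' + 1 := ⟨k - 1, by omega⟩
    have hV1 : V = ∑ i ∈ range k', M b (k' + 1) i * C (θ ^ 2 ^ (k' + 1 - i))
        + M b (k' + 1) k' * C (θ ^ 2) := by
      simp only [V]
      rw [Finset.sum_range_succ]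
      congr 4
      have : k' + 1 - k' = 1 := by omega
      rw [this, pow_one]
    have hV2 : φ V = ∑ i ∈ range k', (1 + C b * X) * M b (k' + 1) i * C (θ ^ 2 ^ (k' + 1 - i))
        + C (θ ^ 2) := by
      simp only [V]
      rw [map_sum, Finset.sum_range_succ']
      congr 1
      · refine Finset.sum_congr rfl fun i hi => ?_
        have hi' := mem_range.1 hi
        rw [map_mul, hφM i (by omega), hφC, ← pow_mul, ← pow_succ]
        congr 4
        omega
      · rw [map_mul, hφC]
        have : M b (k' + 1) 0 = 1 := by simp [M]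
        rw [this, map_one, one_mul, Nat.sub_zero, hF]
    have hN' : (1 + C b * X) * M b (k' + 1) k' = N b (k' + 1) := by
      simpa using hN
    rw [hV2, hV1, ← hN']
    have : ∑ i ∈ range k', (1 + C b * X) * M b (k' + 1) i * C (θ ^ 2 ^ (k' + 1 - i))
        = (1 + C b * X) * ∑ i ∈ range k', M b (k' + 1) i * C (θ ^ 2 ^ (k' + 1 - i)) := by
      rw [Finset.mul_sum]
      refine Finset.sum_congr rfl fun i _ => ?_
      ring
    rw [this]
    ring
  refine ⟨fun j => V.coeff j, ?_, ?_⟩
  · have h1 : V.coeff 0 = ∑ i ∈ range k, θ ^ 2 ^ (k - i) := by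
      simp only [V, Polynomial.finsetSum_coeff]
      refine Finset.sum_congr rfl fun i _ => ?_
      rw [Polynomial.coeff_mul_C]
      have : (M b k i).coeff 0 = 1 := by
        rw [Polynomial.coeff_zero_eq_eval_zero, M, Polynomial.eval_prod]
        simp
      rw [this, one_mul]
    show V.coeff 0 = 1
    rw [h1, ← hθ, ← Finset.sum_range_reflect]
    have h2 : ∀ i ∈ range k, θ ^ 2 ^ (k - (k - 1 - i)) = (θ ^ 2 ^ i) ^ 2 := by
      intro i hi
      have := mem_range.1 hi
      rw [← pow_mul, ← pow_succ]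
      congr 2
      omega
    rw [Finset.sum_congr rfl h2]
    have h3 : (∑ i ∈ range k, θ ^ 2 ^ i) ^ 2 = ∑ i ∈ range k, (θ ^ 2 ^ i) ^ 2 := by
      rw [← frobenius_def, map_sum]
      simp only [frobenius_def]
    rw [← h3, hθ]; norm_num
  · intro j hj
    have h1 := congrArg (fun p => Polynomial.coeff p (j + 1)) hφV
    have h2 : (φ V).coeff (j + 1) = (V.coeff (j + 1)) ^ 2 := by
      simp [φ, Polynomial.coeff_map, frobenius_def]
    have h3 : ((1 + C b * X) * V).coeff (j + 1) = V.coeff (j + 1) + b * V.coeff j := by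
      rw [add_mul, one_mul, Polynomial.coeff_add, mul_assoc, Polynomial.coeff_C_mul,
        Polynomial.coeff_X_mul]
    have h4 : (C (θ ^ 2) * (1 - N b k)).coeff (j + 1) = 0 := by
      rw [Polynomial.coeff_C_mul, Polynomial.coeff_sub, hb (j + 1) (by omega) hj,
        Polynomial.coeff_one]
      simp
    simp only [Polynomial.coeff_add, h2, h3, h4, add_zero] at h1
    show V.coeff (j + 1) ^ 2 + V.coeff (j + 1) = b * V.coeff j
    rw [h1, add_comm, ← add_assoc, CharTwo.add_self_eq_zero, zero_add]

/-- The key field-theoretic input: a parameter `t ≠ 0` and `α` whose orbit under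
`α ↦ α ^ 2 + t α` hits `0` after exactly `r` steps. -/
theorem exists_tail {k r : ℕ} (hk : Fintype.card F = 2 ^ k) (hr0 : 0 < r)
    (hr : r * (r - 1) / 2 < k) :
    ∃ t α : F, (fun z : F => z ^ 2 + t * z)^[r - 1] α ≠ 0 ∧
      ∀ i, r ≤ i → (fun z : F => z ^ 2 + t * z)^[i] α = 0 := by
  obtain ⟨b, hb0, hb⟩ := exists_b (F := F) hk hr
  obtain ⟨v, hv0, hv⟩ := exists_chain (F := F) hk (by omega) b hb
  set t : F := b⁻¹ with ht
  have ht0 : t ≠ 0 := inv_ne_zero hb0
  have hbt : b = t⁻¹ := by rw [ht, inv_inv]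
  have hstep : ∀ i, i < r → (fun z : F => z ^ 2 + t * z)^[i] (t * v (r - 1)) = t * v (r - 1 - i) := by
    intro i
    induction i with
    | zero => intro _; simp
    | succ i ih =>
      intro hi
      rw [Function.iterate_succ_apply', ih (by omega)]
      have h1 : r - 1 - i = (r - 1 - (i + 1)) + 1 := by omega
      have h2 := hv (r - 1 - (i + 1)) (by omega)
      show (t * v (r - 1 - i)) ^ 2 + t * (t * v (r - 1 - i)) = t * v (r - 1 - (i + 1))
      rw [h1]
      have h3 : (t * v (r - 1 - (i + 1) + 1)) ^ 2 + t * (t * v (r - 1 - (i + 1) + 1))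
          = t ^ 2 * (v (r - 1 - (i + 1) + 1) ^ 2 + v (r - 1 - (i + 1) + 1)) := by ring
      rw [h3, h2, hbt]
      field_simp
  refine ⟨t, t * v (r - 1), ?_, ?_⟩
  · rw [hstep (r - 1) (by omega), Nat.sub_self, hv0, mul_one]
    exact ht0
  · intro i hi
    induction i, hi using Nat.le_induction with
    | base =>
      obtain ⟨r', rfl⟩ : ∃ r', r = r' + 1 := ⟨r - 1, by omega⟩
      rw [Function.iterate_succ_apply', hstep r' (by omega)]
      simp only [Nat.add_sub_cancel, Nat.sub_self, hv0, mul_one]
      have : t ^ 2 + t * t = 0 := by rw [← sq]; exact CharTwo.add_self_eq_zero _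
      exact this
    | succ i _ ih =>
      rw [Function.iterate_succ_apply', ih]; ring

end

end Pool.Agent.Helper50.Engel
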