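import Pool.Agent.Helper50.EngelA

set_option autoImplicit false

namespace Pool.Agent.Helper50.Engel

section

variable {F : Type*} [Field F] [CharP F 2]

/-- the second matrix -/
def yM (t : F) : Matrix.SpecialLinearGroup (Fin 2) F :=
  ⟨!![0, 1; 1, t], by
    rw [Matrix.det_fin_two_of]
    have : (0 : F) * t - 1 * 1 = 1 := by
      have h := CharTwo.two_eq_zero (R := F)
      linear_combination (-1 : F) * h
    exact this⟩

/-- the first matrix -/
def xM (α : F) : Matrix.SpecialLinearGroup (Fin 2) F :=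
  ⟨!![1, α; 0, 1], by rw [Matrix.det_fin_two_of]; ring⟩

theorem trace_first (t α : F) :
    Matrix.trace (((xM α)⁻¹ * (yM t)⁻¹ * xM α * yM t : Matrix.SpecialLinearGroup (Fin 2) F) :
      Matrix (Fin 2) (Fin 2) F) = α ^ 2 := by
  have h2 := CharTwo.two_eq_zero (R := F)
  simp only [Matrix.SpecialLinearGroup.coe_mul, Matrix.SpecialLinearGroup.coe_inv, xM, yM,
    Matrix.adjugate_fin_two_of, Matrix.mul_fin_two, Matrix.trace_fin_two_of]
  linear_combination (-1 : F) * h2

theorem trace_conj (a y : Matrix.SpecialLinearGroup (Fin 2) F) :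
    Matrix.trace ((a⁻¹ * y⁻¹ * a : Matrix.SpecialLinearGroup (Fin 2) F) :
      Matrix (Fin 2) (Fin 2) F) = Matrix.trace ((y⁻¹ : Matrix.SpecialLinearGroup (Fin 2) F) :
      Matrix (Fin 2) (Fin 2) F) := by
  rw [Matrix.SpecialLinearGroup.coe_mul, Matrix.trace_mul_comm, ← Matrix.SpecialLinearGroup.coe_mul,
    ← mul_assoc, mul_inv_cancel, one_mul]

theorem trace_yinv (t : F) : Matrix.trace (((yM t)⁻¹ : Matrix.SpecialLinearGroup (Fin 2) F) :
      Matrix (Fin 2) (Fin 2) F) = t := by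
  simp only [Matrix.SpecialLinearGroup.coe_inv, yM,
    Matrix.adjugate_fin_two_of, Matrix.trace_fin_two_of]
  ring

theorem trace_step (t : F) (a : Matrix.SpecialLinearGroup (Fin 2) F)
    (ha : Matrix.trace ((a * (yM t)⁻¹ : Matrix.SpecialLinearGroup (Fin 2) F) :
      Matrix (Fin 2) (Fin 2) F) = t) :
    Matrix.trace ((a⁻¹ * (yM t)⁻¹ * a * yM t : Matrix.SpecialLinearGroup (Fin 2) F) :
      Matrix (Fin 2) (Fin 2) F) =
      (Matrix.trace (a : Matrix (Fin 2) (Fin 2) F)) ^ 2 +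
        t ^ 2 * Matrix.trace (a : Matrix (Fin 2) (Fin 2) F) := by
  obtain ⟨A, hA⟩ := a
  have h2 := CharTwo.two_eq_zero (R := F)
  have hA' : A = !![A 0 0, A 0 1; A 1 0, A 1 1] := Matrix.eta_fin_two A
  generalize A 0 0 = p at hA'
  generalize A 0 1 = q at hA'
  generalize A 1 0 = u at hA'
  generalize A 1 1 = v at hA'
  subst hA'
  rw [Matrix.det_fin_two_of] at hA
  simp only [Matrix.SpecialLinearGroup.coe_mul, Matrix.SpecialLinearGroup.coe_inv, yM,
    Matrix.adjugate_fin_two_of, Matrix.mul_fin_two, Matrix.trace_fin_two_of] at ha ⊢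
  grind

/-- main iteration -/
theorem trace_iter (t α : F) (i : ℕ) :
    Matrix.trace (((fun z : Matrix.SpecialLinearGroup (Fin 2) F =>
        z⁻¹ * (yM t)⁻¹ * z * yM t)^[i + 1] (xM α) : Matrix.SpecialLinearGroup (Fin 2) F) :
      Matrix (Fin 2) (Fin 2) F) = ((fun z : F => z ^ 2 + t * z)^[i] α) ^ 2 := by
  induction i with
  | zero => simpa using trace_first t α
  | succ i ih =>
    rw [Function.iterate_succ_apply', trace_step, ih]
    · rw [Function.iterate_succ_apply']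
      have h2 := CharTwo.two_eq_zero (R := F)
      ring_nf
      grind
    · rw [Function.iterate_succ_apply']
      have h1 : ∀ z : Matrix.SpecialLinearGroup (Fin 2) F,
          z⁻¹ * (yM t)⁻¹ * z * yM t * (yM t)⁻¹ = z⁻¹ * (yM t)⁻¹ * z := by
        intro z; group
      rw [h1, trace_conj, trace_yinv]

end

theorem not_law {F : Type*} [Field F] [Fintype F] [CharP F 2] {k r : ℕ}
    (hk : Fintype.card F = 2 ^ k) (hr0 : 0 < r)
    (hr : r * (r - 1) / 2 < k) :
    ∃ x y : Matrix.SpecialLinearGroup (Fin 2) F, ∀ s, r < s →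
      (fun z => z⁻¹ * y⁻¹ * z * y)^[r] x ≠ (fun z => z⁻¹ * y⁻¹ * z * y)^[s] x := by
  obtain ⟨t, α, h1, h2⟩ := exists_tail (F := F) hk hr0 hr
  refine ⟨xM α, yM t, fun s hs heq => ?_⟩
  obtain ⟨r', rfl⟩ : ∃ r', r = r' + 1 := ⟨r - 1, by omega⟩
  obtain ⟨s', rfl⟩ : ∃ s', s = s' + 1 := ⟨s - 1, by omega⟩
  have h3 := congrArg (fun g : Matrix.SpecialLinearGroup (Fin 2) F =>
    Matrix.trace (g : Matrix (Fin 2) (Fin 2) F)) heq
  simp only [trace_iter] at h3
  rw [h2 s' (by omega)] at h3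
  simp only [Nat.add_sub_cancel] at h1
  apply h1
  have h4 : ((fun z : F => z ^ 2 + t * z)^[r'] α) ^ 2 = 0 := by rw [h3]; simp
  exact pow_eq_zero_iff (two_ne_zero) |>.1 h4

end Pool.Agent.Helper50.Engel
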